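import Pool.Agent.Helper12.CS.Tb
import Pool.Agent.Helper12.CS.HL

/-! The second moment argument for pairs of primes with a common shift. -/

set_option autoImplicit false

open Finset Filter Topology

namespace Pool.Agent.Helper12.CS

open Pool.Agent.H646 (rat)

lemma pz (s : Finset ℕ) (f : ℕ → ℝ) (s0 Q θ : ℝ) (h1 : s0 ≤ ∑ h ∈ s, f h)
    (h2 : ∑ h ∈ s, f h ^ 2 ≤ Q) (hθ0 : 0 ≤ θ) (hθ : #s * θ ≤ s0 / 2) (hs0 : 0 ≤ s0) :
    s0 ^ 2 ≤ 4 * (#{h ∈ s | θ ≤ f h} * Q) := by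
  classical
  set G := {h ∈ s | θ ≤ f h} with hG
  have e1 : ∑ h ∈ s, f h = ∑ h ∈ G, f h + ∑ h ∈ s with ¬ θ ≤ f h, f h :=
    (sum_filter_add_sum_filter_not s _ _).symm
  have e2 : ∑ h ∈ s with ¬ θ ≤ f h, f h ≤ #s * θ := by
    calc ∑ h ∈ s with ¬ θ ≤ f h, f h ≤ ∑ h ∈ s with ¬ θ ≤ f h, θ := sum_le_sum (fun h hh => by
          have := (mem_filter.1 hh).2
          linarith)
      _ = #(s.filter fun h => ¬ θ ≤ f h) * θ := by rw [sum_const, nsmul_eq_mul]
      _ ≤ #s * θ := by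
        apply mul_le_mul_of_nonneg_right _ hθ0
        exact_mod_cast card_filter_le _ _
  have e3 : s0 / 2 ≤ ∑ h ∈ G, f h := by linarith
  have e4 : (∑ h ∈ G, f h) ^ 2 ≤ #G * ∑ h ∈ G, f h ^ 2 := sq_sum_le_card_mul_sum_sq
  have e5 : ∑ h ∈ G, f h ^ 2 ≤ Q :=
    (sum_le_sum_of_subset_of_nonneg (filter_subset _ _) (fun _ _ _ => sq_nonneg _)).trans h2
  have e6 : (s0 / 2) ^ 2 ≤ (∑ h ∈ G, f h) ^ 2 := pow_le_pow_left₀ (by linarith) e3 2
  have e7 : (#G : ℝ) * ∑ h ∈ G, f h ^ 2 ≤ #G * Q := mul_le_mul_of_nonneg_left e5 (Nat.cast_nonneg _)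
  nlinarith

/-- the number of the common shifts of `x` and `y` up to `H` which make both prime -/
def N2 (H x y : ℕ) : ℕ := #{h ∈ Icc 1 H | (x + h).Prime ∧ (y + h).Prime}

/-- the number of the common shifts of four numbers up to `H` which make all of them prime -/
def N4 (H x y z w : ℕ) : ℕ :=
  #{h ∈ Icc 1 H | ((x + h).Prime ∧ (y + h).Prime) ∧ (z + h).Prime ∧ (w + h).Prime}

lemma N4_le_N2 (H x y z w : ℕ) : N4 H x y z w ≤ N2 H x y :=
  card_le_card fun h hh => by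
    rw [mem_filter] at hh ⊢
    exact ⟨hh.1, hh.2.1⟩

lemma N2_eq (H x y : ℕ) (hxy : x ≤ y) :
    N2 H x y = #{p ∈ Ioc x (x + H) | p.Prime ∧ (p + (y - x)).Prime} := by
  unfold N2
  apply card_bij (fun h _ => x + h)
  · intro h hh
    rw [mem_filter, mem_Icc] at hh
    rw [mem_filter, mem_Ioc]
    refine ⟨by omega, hh.2.1, ?_⟩
    rw [show x + h + (y - x) = y + h by omega]
    exact hh.2.2
  · intro h _ h' _ e
    omega
  · intro p hp
    rw [mem_filter, mem_Ioc] at hp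
    refine ⟨p - x, ?_, by omega⟩
    rw [mem_filter, mem_Icc]
    refine ⟨by omega, ?_, ?_⟩
    · rw [show x + (p - x) = p by omega]
      exact hp.2.1
    · rw [show y + (p - x) = p + (y - x) by omega]
      exact hp.2.2

lemma two : ∃ C : ℝ, 0 < C ∧ ∃ M : ℕ, 1 ≤ M ∧ ∀ᶠ H : ℕ in atTop, ∀ x y : ℕ, x < y →
    (N2 H x y : ℝ) ≤ C * H / Real.log H ^ 2 * rat (y - x) ^ M := by
  obtain ⟨C, hC, M, hM, h⟩ := tb 2 le_rfl
  refine ⟨2 * C, by positivity, M, hM, ?_⟩
  filter_upwards [h] with H hH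
  intro x y hxy
  have h1 := hH ![x, y] (by
    intro i j hij
    fin_cases i <;> fin_cases j <;> simp at hij ⊢ <;> omega)
  have e1 : ({n ∈ Icc 1 H | ∀ j, (n + ![x, y] j).Prime} : Finset ℕ) =
      {h ∈ Icc 1 H | (x + h).Prime ∧ (y + h).Prime} := by
    apply filter_congr
    intro n _
    rw [Fin.forall_fin_two]
    simp [add_comm]
  rw [e1] at h1
  refine h1.trans (le_of_eq ?_)
  rw [Finset.sum_filter, Fintype.sum_prod_type]
  simp only [Fin.sum_univ_two]
  simp only [Matrix.cons_val_zero, Matrix.cons_val_one, ne_eq, not_true_eq_false, if_false, zero_ne_one,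
    not_false_eq_true, if_true, one_ne_zero, Nat.dist_comm y x, Nat.dist_eq_sub_of_le hxy.le, add_zero, zero_add]
  ring

lemma four : ∃ C : ℝ, 0 < C ∧ ∃ M : ℕ, 1 ≤ M ∧ ∀ᶠ H : ℕ in atTop, ∀ x y z w : ℕ, x ≠ y → x ≠ z → x ≠ w →
    y ≠ z → y ≠ w → z ≠ w →
    (N4 H x y z w : ℝ) ≤ C * H / Real.log H ^ 4 * (rat (Nat.dist x y) ^ M + rat (Nat.dist z w) ^ M +
      (rat (Nat.dist x z) ^ M + rat (Nat.dist x w) ^ M + rat (Nat.dist y z) ^ M + rat (Nat.dist y w) ^ M)) := by
  obtain ⟨C, hC, M, hM, h⟩ := tb 4 (by norm_num)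
  refine ⟨2 * C, by positivity, M, hM, ?_⟩
  filter_upwards [h] with H hH
  intro x y z w h1 h2 h3 h4 h5 h6
  have h7 := hH ![x, y, z, w] (by
    intro i j hij
    fin_cases i <;> fin_cases j <;> simp at hij ⊢ <;> omega)
  have e1 : ({n ∈ Icc 1 H | ∀ j, (n + ![x, y, z, w] j).Prime} : Finset ℕ) =
      {h ∈ Icc 1 H | ((x + h).Prime ∧ (y + h).Prime) ∧ (z + h).Prime ∧ (w + h).Prime} := by
    apply filter_congr
    intro n _
    simp [Fin.forall_fin_succ, add_comm, and_assoc]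
  rw [e1] at h7
  refine h7.trans (le_of_eq ?_)
  rw [Finset.sum_filter, Fintype.sum_prod_type]
  simp only [Fin.sum_univ_four]
  simp [Nat.dist_comm y x, Nat.dist_comm z x, Nat.dist_comm w x, Nat.dist_comm z y, Nat.dist_comm w y,
    Nat.dist_comm w z]
  ring

/-- the first moment -/
theorem first (A : ℕ) : ∃ c : ℝ, 0 < c ∧ ∀ᶠ H : ℕ in atTop, ∀ (T : Finset ℕ) (a b : ℕ → ℕ),
    (∀ t ∈ T, a t % 2 = 1 ∧ b t % 2 = 1 ∧ a t < b t ∧ b t ≤ H) →
    Set.InjOn (fun t => b t - a t) T → (H : ℝ) ≤ #T * Real.log H ^ A →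
    c * #T * H / Real.log H ^ 2 ≤ ∑ t ∈ T, (N2 H (a t) (b t) : ℝ) := by
  classical
  obtain ⟨c, hc, hw⟩ := window A
  refine ⟨c / 2, by positivity, ?_⟩
  filter_upwards [hw] with H hH
  intro T a b hT hinj hHT
  set D := T.image (fun t => b t - a t) with hD
  have hDc : #D = #T := card_image_of_injOn hinj
  have h1 := hH D (fun d hd => by
    obtain ⟨t, ht, rfl⟩ := mem_image.1 hd
    obtain ⟨h1, h2, h3, h4⟩ := hT t ht
    refine ⟨?_, by omega⟩
    rw [Nat.even_iff]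
    omega) (by rw [hDc]; exact hHT)
  set B := {d ∈ D | ¬ ∀ a ≤ H, c * (H / Real.log H ^ 2) ≤
      (#{p ∈ Ioc a (a + H) | p.Prime ∧ (p + d).Prime} : ℝ)} with hB
  rw [hDc] at h1
  set T' := {t ∈ T | b t - a t ∉ B} with hT'
  have h2 : (#T : ℝ) / 2 ≤ #T' := by
    have h3 : #T ≤ #T' + #B := by
      have h4 : #{t ∈ T | ¬ (b t - a t ∉ B)} ≤ #B := by
        apply card_le_card_of_injOn (fun t => b t - a t)
        · intro t ht
          rw [Finset.mem_coe, mem_filter] at ht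
          exact not_not.1 ht.2
        · intro t ht t' ht' e
          exact hinj (mem_filter.1 ht).1 (mem_filter.1 ht').1 e
      have h5 := card_filter_add_card_filter_not (s := T) (fun t => b t - a t ∉ B)
      rw [← hT'] at h5
      omega
    have h6 : (#T : ℝ) ≤ #T' + #B := by exact_mod_cast h3
    linarith
  have h3 : ∀ t ∈ T', c * (H / Real.log H ^ 2) ≤ (N2 H (a t) (b t) : ℝ) := by
    intro t ht
    obtain ⟨ht1, ht2⟩ := mem_filter.1 ht
    obtain ⟨h1, h2, h3, h4⟩ := hT t ht1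
    rw [N2_eq H _ _ h3.le]
    by_contra hcon
    apply ht2
    rw [hB, mem_filter]
    refine ⟨mem_image_of_mem _ ht1, ?_⟩
    intro hall
    exact hcon (hall (a t) (by omega))
  have h0 : 0 ≤ c * (H / Real.log H ^ 2) := by positivity
  calc c / 2 * #T * H / Real.log H ^ 2 = (#T / 2) * (c * (H / Real.log H ^ 2)) := by ring
    _ ≤ #T' * (c * (H / Real.log H ^ 2)) := mul_le_mul_of_nonneg_right h2 h0
    _ = ∑ t ∈ T', c * (H / Real.log H ^ 2) := by rw [sum_const, nsmul_eq_mul]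
    _ ≤ ∑ t ∈ T', (N2 H (a t) (b t) : ℝ) := sum_le_sum h3
    _ ≤ ∑ t ∈ T, (N2 H (a t) (b t) : ℝ) :=
        sum_le_sum_of_subset_of_nonneg (filter_subset _ _) (fun _ _ _ => Nat.cast_nonneg _)

lemma fib2 (S : Finset ℕ) (y : ℕ → ℕ) (hy : Set.InjOn y S) (x v : ℕ) :
    #{t ∈ S | Nat.dist x (y t) = v} ≤ 2 := by
  classical
  calc #{t ∈ S | Nat.dist x (y t) = v} ≤ #({x + v, x - v} : Finset ℕ) := by
        apply card_le_card_of_injOn y
        · intro t ht
          rw [Finset.mem_coe, mem_filter] at ht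
          have h := ht.2
          unfold Nat.dist at h
          rw [Finset.mem_coe, mem_insert, mem_singleton]
          omega
        · intro t ht t' ht' e
          exact hy (mem_filter.1 ht).1 (mem_filter.1 ht').1 e
    _ ≤ 2 := card_le_two

lemma fib1 (S : Finset ℕ) (y : ℕ → ℕ) (hy : Set.InjOn y S) (v : ℕ) :
    #{t ∈ S | y t = v} ≤ 2 := by
  classical
  calc #{t ∈ S | y t = v} ≤ #({v} : Finset ℕ) := by
        apply card_le_card_of_injOn y
        · intro t ht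
          rw [Finset.mem_coe, mem_filter] at ht
          rw [Finset.mem_coe, mem_singleton]
          exact ht.2
        · intro t ht t' ht' e
          exact hy (mem_filter.1 ht).1 (mem_filter.1 ht').1 e
    _ ≤ 2 := by simp

lemma ev2 (A : ℕ) : ∀ᶠ H : ℕ in atTop, 1 ≤ Real.log (Real.log (Real.log H)) ∧
    2 ≤ Real.log H ∧ 6 * Real.log H ^ (A + 2) ≤ H := by
  have hlogt : Tendsto (fun x : ℕ => Real.log (x : ℝ)) atTop atTop :=
    Real.tendsto_log_atTop.comp tendsto_natCast_atTop_atTop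
  have hlll : Tendsto (fun x : ℕ => Real.log (Real.log (Real.log (x : ℝ)))) atTop atTop :=
    Real.tendsto_log_atTop.comp (Real.tendsto_log_atTop.comp hlogt)
  have h3 : ∀ᶠ x : ℝ in atTop, ‖Real.log x ^ (A + 2)‖ ≤ 1 / 6 * ‖x‖ := by
    have h4 := (isLittleO_log_rpow_rpow_atTop ((A + 2 : ℕ) : ℝ) (s := 1) one_pos)
    have h5 := h4.bound (show (0 : ℝ) < 1 / 6 by norm_num)
    filter_upwards [h5] with x hx
    rw [Real.rpow_natCast, Real.rpow_one] at hx
    exact hx
  have h4 := tendsto_natCast_atTop_atTop.eventually h3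
  filter_upwards [hlogt.eventually_ge_atTop 2, hlll.eventually_ge_atTop 1, h4] with H g1 g2 g3
  refine ⟨g2, g1, ?_⟩
  rw [Real.norm_of_nonneg (by positivity), Real.norm_of_nonneg (by positivity)] at g3
  linarith

/-- the second moment -/
theorem second (A : ℕ) : ∃ C : ℝ, 0 < C ∧ ∃ M : ℕ, ∀ᶠ H : ℕ in atTop, ∀ (T : Finset ℕ) (a b : ℕ → ℕ),
    (∀ t ∈ T, a t < b t ∧ b t ≤ H) → Set.InjOn a T → Set.InjOn b T →
    Set.InjOn (fun t => b t - a t) T → (H : ℝ) ≤ #T * Real.log H ^ A →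
    ∑ t ∈ T, ∑ t' ∈ T, (N4 H (a t) (b t) (a t') (b t') : ℝ) ≤
      C * H * #T ^ 2 * Real.log (Real.log (Real.log H)) ^ M / Real.log H ^ 4 := by
  classical
  obtain ⟨C2, hC2, M2, hM2, h2⟩ := two
  obtain ⟨C4, hC4, M4, hM4, h4⟩ := four
  obtain ⟨D2, hD2, m2⟩ := mom' A M2 hM2
  obtain ⟨D3, hD3, m3⟩ := mom' A M4 hM4
  obtain ⟨D4, hD4, m4⟩ := mom' (A + 1) M4 hM4
  refine ⟨3 * C2 * D2 + C4 * (2 * D3 + 4 * D4), by positivity, M2 + M4, ?_⟩
  filter_upwards [h2, h4, m2, m3, m4, ev2 A] with H h2 h4 m2 m3 m4 ⟨hl3, hl1, hbig⟩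
  intro T a b hT ha hb hd hHT
  set L := Real.log (H : ℝ) with hL
  set W := Real.log (Real.log L) with hW
  have hL0 : 0 < L := by linarith
  have hLA : 0 < L ^ A := by positivity
  have hT6 : 6 * L ^ 2 ≤ #T := by
    have e1 : 6 * L ^ 2 * L ^ A ≤ #T * L ^ A := by
      calc 6 * L ^ 2 * L ^ A = 6 * L ^ (A + 2) := by ring
        _ ≤ H := hbig
        _ ≤ _ := hHT
    exact le_of_mul_le_mul_right e1 hLA
  have hT0 : (0 : ℝ) < #T := by nlinarith
  -- the exceptional indices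
  set E : ℕ → Finset ℕ := fun t => {t' ∈ T | t' = t ∨ b t' = a t ∨ a t' = b t} with hE
  have hE3 : ∀ t, #(E t) ≤ 3 := by
    intro t
    have e1 : E t ⊆ {t' ∈ T | t' = t} ∪ ({t' ∈ T | b t' = a t} ∪ {t' ∈ T | a t' = b t}) := by
      intro t' ht'
      simp only [hE, mem_filter, mem_union] at ht' ⊢
      tauto
    have e2 : #{t' ∈ T | t' = t} ≤ 1 := by
      apply card_le_one.2
      intro x hx y hy
      rw [(mem_filter.1 hx).2, (mem_filter.1 hy).2]
    have e3 : #{t' ∈ T | b t' = a t} ≤ 1 := by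
      apply card_le_one.2
      intro x hx y hy
      rw [mem_filter] at hx hy
      exact hb hx.1 hy.1 (hx.2.trans hy.2.symm)
    have e4 : #{t' ∈ T | a t' = b t} ≤ 1 := by
      apply card_le_one.2
      intro x hx y hy
      rw [mem_filter] at hx hy
      exact ha hx.1 hy.1 (hx.2.trans hy.2.symm)
    have e5 := (card_le_card e1).trans ((card_union_le _ _).trans (add_le_add le_rfl (card_union_le _ _)))
    omega
  set F : ℕ → Finset ℕ := fun t => {t' ∈ T | ¬ (t' = t ∨ b t' = a t ∨ a t' = b t)} with hF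
  have hFT : ∀ t, #(F t) ≤ #T := fun t => card_filter_le _ _
  have hEF : ∀ t, #(E t) + #(F t) = #T := fun t => card_filter_add_card_filter_not _
  have hFH : ∀ t, (H : ℝ) ≤ #(F t) * L ^ (A + 1) := by
    intro t
    have e1 : (#T : ℝ) ≤ 2 * #(F t) := by
      have e2 : (#(E t) : ℝ) + #(F t) = #T := by exact_mod_cast hEF t
      have e3 : (#(E t) : ℝ) ≤ 3 := by exact_mod_cast hE3 t
      nlinarith
    calc (H : ℝ) ≤ #T * L ^ A := hHT
      _ ≤ (2 * #(F t)) * L ^ A := mul_le_mul_of_nonneg_right e1 hLA.le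
      _ ≤ (L * #(F t)) * L ^ A := by gcongr
      _ = _ := by ring
  -- mixed sums
  have mix : ∀ t ∈ T, ∀ (x : ℕ) (y : ℕ → ℕ), x ≤ H → (∀ t' ∈ F t, y t' ≤ H ∧ x ≠ y t') →
      Set.InjOn y T → ∑ t' ∈ F t, rat (Nat.dist x (y t')) ^ M4 ≤ D4 * #T * W ^ M4 := by
    intro t ht x y hx hy hyi
    have hyi' : Set.InjOn y (F t) := hyi.mono (by
      intro z hz
      exact (mem_filter.1 hz).1)
    refine (m4 ℕ (F t) (fun t' => Nat.dist x (y t')) ?_ (fib2 _ _ hyi' _) (hFH t)).trans ?_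
    · intro t' ht'
      obtain ⟨e1, e2⟩ := hy t' ht'
      simp only [Nat.dist]
      omega
    · have : (#(F t) : ℝ) ≤ #T := by exact_mod_cast hFT t
      gcongr
  have own : ∑ t ∈ T, rat (b t - a t) ^ M4 ≤ D3 * #T * W ^ M4 := by
    refine m3 ℕ T (fun t => b t - a t) ?_ (fib1 _ _ hd) hHT
    intro t ht
    have := hT t ht
    omega
  have own2 : ∑ t ∈ T, rat (b t - a t) ^ M2 ≤ D2 * #T * W ^ M2 := by
    refine m2 ℕ T (fun t => b t - a t) ?_ (fib1 _ _ hd) hHT
    intro t ht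
    have := hT t ht
    omega
  have hH0 : (0 : ℝ) ≤ H := Nat.cast_nonneg _
  -- the near part
  have near : ∑ t ∈ T, ∑ t' ∈ E t, (N4 H (a t) (b t) (a t') (b t') : ℝ) ≤
      3 * C2 * D2 * H * #T ^ 2 * W ^ M2 / L ^ 4 := by
    calc ∑ t ∈ T, ∑ t' ∈ E t, (N4 H (a t) (b t) (a t') (b t') : ℝ)
        ≤ ∑ t ∈ T, ∑ t' ∈ E t, (N2 H (a t) (b t) : ℝ) := by
          apply sum_le_sum
          intro t _
          apply sum_le_sum
          intro t' _
          exact_mod_cast N4_le_N2 _ _ _ _ _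
      _ ≤ ∑ t ∈ T, 3 * (C2 * H / L ^ 2 * rat (b t - a t) ^ M2) := by
          apply sum_le_sum
          intro t ht
          rw [sum_const, nsmul_eq_mul]
          have e1 : (#(E t) : ℝ) ≤ 3 := by exact_mod_cast hE3 t
          exact mul_le_mul e1 (h2 _ _ (hT t ht).1) (Nat.cast_nonneg _) (by norm_num)
      _ = 3 * C2 * H / L ^ 2 * ∑ t ∈ T, rat (b t - a t) ^ M2 := by
          rw [mul_sum]
          apply sum_congr rfl
          intro t _
          ring
      _ ≤ 3 * C2 * H / L ^ 2 * (D2 * #T * W ^ M2) := by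
          apply mul_le_mul_of_nonneg_left own2 (by positivity)
      _ = 3 * C2 * D2 * H * #T * (L ^ 2) * W ^ M2 / L ^ 4 := by
          field_simp
      _ ≤ 3 * C2 * D2 * H * #T * #T * W ^ M2 / L ^ 4 := by
          have e1 : L ^ 2 ≤ #T := by nlinarith [sq_nonneg L]
          gcongr
      _ = _ := by ring
  -- the far part
  have far : ∑ t ∈ T, ∑ t' ∈ F t, (N4 H (a t) (b t) (a t') (b t') : ℝ) ≤
      C4 * (2 * D3 + 4 * D4) * H * #T ^ 2 * W ^ M4 / L ^ 4 := by
    have e0 : ∀ t ∈ T, ∑ t' ∈ F t, (N4 H (a t) (b t) (a t') (b t') : ℝ) ≤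
        C4 * H / L ^ 4 * (#T * rat (b t - a t) ^ M4 + D3 * #T * W ^ M4 + 4 * (D4 * #T * W ^ M4)) := by
      intro t ht
      have hta := hT t ht
      calc ∑ t' ∈ F t, (N4 H (a t) (b t) (a t') (b t') : ℝ)
          ≤ ∑ t' ∈ F t, C4 * H / L ^ 4 * (rat (Nat.dist (a t) (b t)) ^ M4 +
            rat (Nat.dist (a t') (b t')) ^ M4 + (rat (Nat.dist (a t) (a t')) ^ M4 +
            rat (Nat.dist (a t) (b t')) ^ M4 + rat (Nat.dist (b t) (a t')) ^ M4 +
            rat (Nat.dist (b t) (b t')) ^ M4)) := by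
            apply sum_le_sum
            intro t' ht'
            obtain ⟨k1, k2⟩ := mem_filter.1 ht'
            have hta' := hT t' k1
            push Not at k2
            apply h4
            · omega
            · intro e
              exact k2.1 (ha k1 ht e.symm)
            · exact fun e => k2.2.1 e.symm
            · exact fun e => k2.2.2 e.symm
            · intro e
              exact k2.1 (hb k1 ht e.symm)
            · omega
        _ = C4 * H / L ^ 4 * (#(F t) * rat (Nat.dist (a t) (b t)) ^ M4 +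
            ∑ t' ∈ F t, rat (Nat.dist (a t') (b t')) ^ M4 + (∑ t' ∈ F t, rat (Nat.dist (a t) (a t')) ^ M4 +
            ∑ t' ∈ F t, rat (Nat.dist (a t) (b t')) ^ M4 + ∑ t' ∈ F t, rat (Nat.dist (b t) (a t')) ^ M4 +
            ∑ t' ∈ F t, rat (Nat.dist (b t) (b t')) ^ M4)) := by
            rw [← mul_sum]
            simp only [sum_add_distrib, sum_const, nsmul_eq_mul]
        _ ≤ _ := by
            apply mul_le_mul_of_nonneg_left _ (by positivity)
            have j1 : (#(F t) : ℝ) * rat (Nat.dist (a t) (b t)) ^ M4 ≤ #T * rat (b t - a t) ^ M4 := by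
              rw [Nat.dist_eq_sub_of_le hta.1.le]
              have : (#(F t) : ℝ) ≤ #T := by exact_mod_cast hFT t
              exact mul_le_mul_of_nonneg_right this (pow_nonneg (rat_nonneg' _) _)
            have j2 : ∑ t' ∈ F t, rat (Nat.dist (a t') (b t')) ^ M4 ≤ D3 * #T * W ^ M4 := by
              refine le_trans ?_ own
              calc ∑ t' ∈ F t, rat (Nat.dist (a t') (b t')) ^ M4
                  = ∑ t' ∈ F t, rat (b t' - a t') ^ M4 := by
                    apply sum_congr rfl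
                    intro t' ht'
                    rw [Nat.dist_eq_sub_of_le (hT t' (mem_filter.1 ht').1).1.le]
                _ ≤ _ := sum_le_sum_of_subset_of_nonneg (filter_subset _ _)
                    (fun _ _ _ => pow_nonneg (rat_nonneg' _) _)
            have hab : ∀ t' ∈ F t, a t' ≤ H ∧ b t' ≤ H ∧ a t ≠ a t' ∧ a t ≠ b t' ∧ b t ≠ a t' ∧ b t ≠ b t' := by
              intro t' ht'
              obtain ⟨k1, k2⟩ := mem_filter.1 ht'
              have hta' := hT t' k1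
              push Not at k2
              refine ⟨by omega, by omega, ?_, ?_, ?_, ?_⟩
              · intro e
                exact k2.1 (ha k1 ht e.symm)
              · exact fun e => k2.2.1 e.symm
              · exact fun e => k2.2.2 e.symm
              · intro e
                exact k2.1 (hb k1 ht e.symm)
            have j3 := mix t ht (a t) a (by omega) (fun t' ht' => ⟨(hab t' ht').1, (hab t' ht').2.2.1⟩) ha
            have j4 := mix t ht (a t) b (by omega) (fun t' ht' => ⟨(hab t' ht').2.1, (hab t' ht').2.2.2.1⟩) hb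
            have j5 := mix t ht (b t) a (by omega) (fun t' ht' => ⟨(hab t' ht').1, (hab t' ht').2.2.2.2.1⟩) ha
            have j6 := mix t ht (b t) b (by omega) (fun t' ht' => ⟨(hab t' ht').2.1, (hab t' ht').2.2.2.2.2⟩) hb
            linarith
    calc ∑ t ∈ T, ∑ t' ∈ F t, (N4 H (a t) (b t) (a t') (b t') : ℝ)
        ≤ ∑ t ∈ T, C4 * H / L ^ 4 * (#T * rat (b t - a t) ^ M4 + D3 * #T * W ^ M4 +
          4 * (D4 * #T * W ^ M4)) := sum_le_sum e0
      _ = C4 * H / L ^ 4 * (#T * ∑ t ∈ T, rat (b t - a t) ^ M4 + #T * (D3 * #T * W ^ M4) +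
          #T * (4 * (D4 * #T * W ^ M4))) := by
          rw [← mul_sum]
          simp only [sum_add_distrib, sum_const, nsmul_eq_mul, ← mul_sum]
      _ ≤ C4 * H / L ^ 4 * (#T * (D3 * #T * W ^ M4) + #T * (D3 * #T * W ^ M4) +
          #T * (4 * (D4 * #T * W ^ M4))) := by
          apply mul_le_mul_of_nonneg_left _ (by positivity)
          have := mul_le_mul_of_nonneg_left own hT0.le
          linarith
      _ = _ := by ring
  have hsplit : ∀ t ∈ T, ∑ t' ∈ T, (N4 H (a t) (b t) (a t') (b t') : ℝ) =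
      ∑ t' ∈ E t, (N4 H (a t) (b t) (a t') (b t') : ℝ) + ∑ t' ∈ F t, (N4 H (a t) (b t) (a t') (b t') : ℝ) :=
    fun t _ => (sum_filter_add_sum_filter_not T _ _).symm
  rw [sum_congr rfl hsplit, sum_add_distrib]
  have hW2 : W ^ M2 ≤ W ^ (M2 + M4) := pow_le_pow_right₀ hl3 (by omega)
  have hW4 : W ^ M4 ≤ W ^ (M2 + M4) := pow_le_pow_right₀ hl3 (by omega)
  have near' : 3 * C2 * D2 * H * #T ^ 2 * W ^ M2 / L ^ 4 ≤ 3 * C2 * D2 * H * #T ^ 2 * W ^ (M2 + M4) / L ^ 4 := by
    gcongr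
  have far' : C4 * (2 * D3 + 4 * D4) * H * #T ^ 2 * W ^ M4 / L ^ 4 ≤
      C4 * (2 * D3 + 4 * D4) * H * #T ^ 2 * W ^ (M2 + M4) / L ^ 4 := by
    gcongr
  have e9 : (3 * C2 * D2 + C4 * (2 * D3 + 4 * D4)) * H * #T ^ 2 * W ^ (M2 + M4) / L ^ 4 =
      3 * C2 * D2 * H * #T ^ 2 * W ^ (M2 + M4) / L ^ 4 +
      C4 * (2 * D3 + 4 * D4) * H * #T ^ 2 * W ^ (M2 + M4) / L ^ 4 := by ring
  rw [e9]
  linarith

/-- many shifts which work for a positive proportion, up to the expected power of the logarithm, of pairs -/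
theorem main (A : ℕ) : ∃ c : ℝ, 0 < c ∧ ∃ M : ℕ, ∀ᶠ H : ℕ in atTop, ∀ (T : Finset ℕ) (a b : ℕ → ℕ),
    (∀ t ∈ T, a t % 2 = 1 ∧ b t % 2 = 1 ∧ a t < b t ∧ b t ≤ H) → Set.InjOn a T → Set.InjOn b T →
    Set.InjOn (fun t => b t - a t) T → (H : ℝ) ≤ #T * Real.log H ^ A →
    c * H / Real.log (Real.log (Real.log H)) ^ M ≤
      #{h ∈ Icc 1 H | c * #T / Real.log H ^ 2 ≤ (#{t ∈ T | (a t + h).Prime ∧ (b t + h).Prime} : ℝ)} := by
  classical
  obtain ⟨c1, hc1, h1⟩ := first A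
  obtain ⟨C, hC, M, h2⟩ := second A
  refine ⟨min (c1 / 2) (c1 ^ 2 / (4 * C)), by positivity, M, ?_⟩
  filter_upwards [h1, h2, ev2 A] with H h1 h2 ⟨hl3, hl1, hbig⟩
  intro T a b hT ha hb hd hHT
  set L := Real.log (H : ℝ) with hL
  set W := Real.log (Real.log L) with hW
  have hL0 : 0 < L := by linarith
  have hLA : 0 < L ^ A := by positivity
  have hH0 : (0 : ℝ) < H := by
    have : 0 < L ^ (A + 2) := by positivity
    linarith
  have hT0 : (0 : ℝ) < #T := by
    by_contra hcon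
    push Not at hcon
    nlinarith
  set f : ℕ → ℝ := fun h => ∑ t ∈ T, if (a t + h).Prime ∧ (b t + h).Prime then (1 : ℝ) else 0 with hf
  have hfc : ∀ h, f h = (#{t ∈ T | (a t + h).Prime ∧ (b t + h).Prime} : ℝ) := by
    intro h
    simp only [hf]
    rw [← Finset.sum_filter, sum_const, nsmul_eq_mul, mul_one]
  have g1 : c1 * #T * H / L ^ 2 ≤ ∑ h ∈ Icc 1 H, f h := by
    refine (h1 T a b hT hd hHT).trans (le_of_eq ?_)
    simp only [hf]
    rw [sum_comm]
    apply sum_congr rfl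
    intro t _
    rw [← Finset.sum_filter, sum_const, nsmul_eq_mul, mul_one]
    rfl
  have g2 : ∑ h ∈ Icc 1 H, f h ^ 2 ≤ C * H * #T ^ 2 * W ^ M / L ^ 4 := by
    refine le_trans (le_of_eq ?_) (h2 T a b (fun t ht => (hT t ht).2.2) ha hb hd hHT)
    have e1 : ∀ h, f h ^ 2 = ∑ t ∈ T, ∑ t' ∈ T,
        if ((a t + h).Prime ∧ (b t + h).Prime) ∧ (a t' + h).Prime ∧ (b t' + h).Prime then (1 : ℝ) else 0 := by
      intro h
      rw [sq]
      simp only [hf]
      rw [sum_mul_sum]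
      apply sum_congr rfl
      intro t _
      apply sum_congr rfl
      intro t' _
      by_cases k1 : (a t + h).Prime ∧ (b t + h).Prime
      · by_cases k2 : (a t' + h).Prime ∧ (b t' + h).Prime
        · rw [if_pos k1, if_pos k2, if_pos ⟨k1, k2⟩, one_mul]
        · rw [if_neg k2, mul_zero, if_neg (fun h => k2 h.2)]
      · rw [if_neg k1, zero_mul, if_neg (fun h => k1 h.1)]
    simp only [e1]
    rw [sum_comm]
    apply sum_congr rfl
    intro t _
    rw [sum_comm]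
    apply sum_congr rfl
    intro t' _
    rw [← Finset.sum_filter, sum_const, nsmul_eq_mul, mul_one]
    rfl
  set θ := c1 / 2 * #T / L ^ 2 with hθ
  have g3 := pz (Icc 1 H) f (c1 * #T * H / L ^ 2) _ θ g1 g2 (by positivity) (by
    rw [Nat.card_Icc, Nat.add_sub_cancel, hθ]
    apply le_of_eq
    ring) (by positivity)
  have hWM : 0 < W ^ M := by positivity
  have g4 : c1 ^ 2 / (4 * C) * H / W ^ M ≤ #{h ∈ Icc 1 H | θ ≤ f h} := by
    rw [div_le_iff₀ hWM]
    have e1 : 0 < 4 * (C * H * #T ^ 2 / L ^ 4) := by positivity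
    refine le_of_mul_le_mul_right ?_ e1
    calc c1 ^ 2 / (4 * C) * H * (4 * (C * H * #T ^ 2 / L ^ 4)) = (c1 * #T * H / L ^ 2) ^ 2 := by
          field_simp
      _ ≤ 4 * (#{h ∈ Icc 1 H | θ ≤ f h} * (C * H * #T ^ 2 * W ^ M / L ^ 4)) := g3
      _ = _ := by ring
  calc min (c1 / 2) (c1 ^ 2 / (4 * C)) * H / W ^ M ≤ c1 ^ 2 / (4 * C) * H / W ^ M := by
        gcongr
        exact min_le_right _ _
    _ ≤ #{h ∈ Icc 1 H | θ ≤ f h} := g4
    _ ≤ _ := by
        norm_cast
        apply card_le_card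
        intro h hh
        rw [mem_filter] at hh ⊢
        refine ⟨hh.1, ?_⟩
        rw [← hfc h]
        refine le_trans ?_ hh.2
        rw [hθ]
        gcongr
        exact min_le_left _ _

end Pool.Agent.Helper12.CS
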