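import Pool.Graph.R_pool_sql_team_seeded_843ab51a.Helper29.BE.Vec
import Pool.Graph.R_seed8.H646.Tuples

/-! Powers of the singular factor over sparse families, and the sieve bound for prime tuples. -/

set_option autoImplicit false

open Finset Filter Topology

namespace Pool.Agent.Helper12.CS

open Pool.Agent.H197R2.PG
open Pool.Agent.H646 (rat)

lemma gg_nonneg (n : ℕ) : 0 ≤ gg n := by linarith [one_le_gg n]

/-- The average of a power of the singular factor over a sparse family. -/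
theorem mom (d : ℕ) (hd : 1 ≤ d) : ∃ C : ℝ, 1 ≤ C ∧ ∀ (k Y : ℕ) (ι : Type) (T : Finset ι) (φ : ι → ℕ)
    (E : ℝ), 3 ≤ k → (∀ t ∈ T, 1 ≤ φ t ∧ φ t ≤ Y) → (∀ v, #(T.filter (fun t => φ t = v)) ≤ 2) →
    0 ≤ E → 2 * (Y : ℝ) ≤ E ^ k * #T →
    ∑ t ∈ T, gg (φ t) ^ d ≤ E * (C * Real.log k) ^ d * #T := by
  classical
  obtain ⟨C, hC, hE⟩ := euler_le
  have hlogd : 0 ≤ Real.log d := Real.log_natCast_nonneg d
  refine ⟨C * (1 + Real.log d), by nlinarith, ?_⟩
  intro k Y ι T φ E hk hφ hfib hE0 hYE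
  have hk3 : (3 : ℝ) ≤ k := by exact_mod_cast hk
  have hlogk : 1 ≤ Real.log k := by
    rw [Real.le_log_iff_exp_le (by linarith)]
    have := Real.exp_one_lt_d9
    linarith
  set X := ∑ t ∈ T, gg (φ t) ^ d with hX
  have hK0 : (0 : ℝ) ≤ (#T : ℝ) := Nat.cast_nonneg _
  obtain ⟨m, rfl⟩ : ∃ m, k = m + 1 := ⟨k - 1, by omega⟩
  have h1 : X ^ (m + 1) ≤ (#T : ℝ) ^ m * ∑ t ∈ T, (gg (φ t) ^ d) ^ (m + 1) :=
    pow_sum_le_card_mul_sum_pow (fun x _ => pow_nonneg (gg_nonneg _) d) m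
  set D : ℕ := d * (m + 1) with hD
  have h3 : ∑ t ∈ T, (gg (φ t) ^ d) ^ (m + 1) ≤ 2 * ∑ h ∈ Icc 1 Y, gg h ^ D := by
    have e1 : ∑ t ∈ T, (gg (φ t) ^ d) ^ (m + 1) = ∑ t ∈ T, (fun h : ℕ => gg h ^ D) (φ t) := by
      apply Finset.sum_congr rfl
      intro t _
      rw [← pow_mul]
    rw [e1, ← Finset.sum_fiberwise_of_maps_to (t := Icc 1 Y) (g := φ) (fun t ht => mem_Icc.2 (hφ t ht)),
      Finset.mul_sum]
    apply Finset.sum_le_sum
    intro v _
    calc ∑ t ∈ T with φ t = v, (fun h : ℕ => gg h ^ D) (φ t)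
        = ∑ t ∈ T with φ t = v, gg v ^ D := by
          apply Finset.sum_congr rfl
          intro t ht
          simp only [(mem_filter.1 ht).2]
      _ = #(T.filter (fun t => φ t = v)) * gg v ^ D := by rw [sum_const, nsmul_eq_mul]
      _ ≤ 2 * gg v ^ D := by
          apply mul_le_mul_of_nonneg_right _ (pow_nonneg (gg_nonneg v) _)
          exact_mod_cast hfib v
  have hD3 : 3 ≤ D := by
    rw [hD]
    calc 3 ≤ m + 1 := hk
      _ ≤ d * (m + 1) := Nat.le_mul_of_pos_left _ hd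
  have h6 : ∑ h ∈ Icc 1 Y, gg h ^ D ≤ Y * (C * Real.log (D : ℕ)) ^ D :=
    (moment_le D Y).trans (mul_le_mul_of_nonneg_left (hE D Y hD3) (Nat.cast_nonneg _))
  set W : ℝ := C * Real.log (D : ℕ) with hWdef
  have hlogD0 : 0 ≤ Real.log (D : ℕ) := Real.log_natCast_nonneg D
  have hW0 : 0 ≤ W := by positivity
  have h7 : X ^ (m + 1) ≤ (E * W ^ d * (#T : ℝ)) ^ (m + 1) := by
    calc X ^ (m + 1) ≤ (#T : ℝ) ^ m * ∑ t ∈ T, (gg (φ t) ^ d) ^ (m + 1) := h1
      _ ≤ (#T : ℝ) ^ m * (2 * (Y * W ^ D)) := by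
          apply mul_le_mul_of_nonneg_left _ (by positivity)
          exact h3.trans (mul_le_mul_of_nonneg_left h6 (by norm_num))
      _ = (#T : ℝ) ^ m * (W ^ D * (2 * Y)) := by ring
      _ ≤ (#T : ℝ) ^ m * (W ^ D * (E ^ (m + 1) * #T)) := by gcongr
      _ = (E * W ^ d * (#T : ℝ)) ^ (m + 1) := by
          rw [hD, pow_mul]
          simp only [mul_pow]
          ring
  have h8 : X ≤ E * W ^ d * (#T : ℝ) := le_of_pow_le_pow_left₀ (by omega) (by positivity) h7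
  refine h8.trans ?_
  have h9 : W ≤ C * (1 + Real.log d) * Real.log ((m + 1 : ℕ) : ℝ) := by
    rw [hWdef, hD]
    push_cast
    rw [Real.log_mul (by positivity) (by positivity)]
    push_cast at hlogk
    have h10 : Real.log d ≤ Real.log d * Real.log ((m : ℝ) + 1) := by nlinarith
    nlinarith
  gcongr

lemma prod_half (s : Finset ℕ) (hs : ∀ p ∈ s, 2 ≤ p) : (1 : ℝ) / 2 ≤ ∏ p ∈ s, (1 - 1 / (p : ℝ) ^ 2) := by
  classical
  have h1 : ∀ N : ℕ, 2 ≤ N → ∏ p ∈ Icc 2 N, (1 - 1 / (p : ℝ) ^ 2) = ((N : ℝ) + 1) / (2 * (N : ℝ)) := by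
    intro N hN
    induction N, hN using Nat.le_induction with
    | base => norm_num
    | succ n hn ih =>
      rw [Finset.prod_Icc_succ_top (by omega), ih]
      have hn0 : (0 : ℝ) < n := by
        have : 0 < n := by omega
        exact_mod_cast this
      have hn1 : (0 : ℝ) < (n : ℝ) + 1 := by linarith
      push_cast
      field_simp
      ring
  obtain ⟨N, hN2, hN⟩ : ∃ N, 2 ≤ N ∧ s ⊆ Icc 2 N := by
    refine ⟨max 2 (s.sup id), le_max_left _ _, fun p hp => ?_⟩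
    rw [mem_Icc]
    exact ⟨hs p hp, (Finset.le_sup (f := id) hp).trans (le_max_right _ _)⟩
  have hf0 : ∀ p ∈ Icc 2 N, (0 : ℝ) ≤ 1 - 1 / (p : ℝ) ^ 2 := by
    intro p hp
    have hp2 : (2 : ℝ) ≤ p := by exact_mod_cast (mem_Icc.1 hp).1
    have : 1 / (p : ℝ) ^ 2 ≤ 1 := by
      rw [div_le_one (by positivity)]
      nlinarith
    linarith
  have h2 : ∏ p ∈ Icc 2 N, (1 - 1 / (p : ℝ) ^ 2) ≤ ∏ p ∈ s, (1 - 1 / (p : ℝ) ^ 2) := by
    rw [← Finset.prod_sdiff hN]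
    have h3 : ∏ p ∈ Icc 2 N \ s, (1 - 1 / (p : ℝ) ^ 2) ≤ 1 := by
      apply Finset.prod_le_one
      · intro p hp
        exact hf0 p (mem_sdiff.1 hp).1
      · intro p _
        have : 0 ≤ 1 / (p : ℝ) ^ 2 := by positivity
        linarith
    have h4 : 0 ≤ ∏ p ∈ s, (1 - 1 / (p : ℝ) ^ 2) := Finset.prod_nonneg fun p hp => hf0 p (hN hp)
    nlinarith
  rw [h1 N hN2] at h2
  refine le_trans ?_ h2
  have hN0 : (0 : ℝ) < N := by
    have : 0 < N := by omega
    exact_mod_cast this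
  rw [div_le_div_iff₀ (by norm_num) (by positivity)]
  linarith

lemma rat_le_gg (n : ℕ) (hn : 1 ≤ n) : rat n ≤ 2 * gg n := by
  classical
  have hn0 : (0 : ℝ) < n := by exact_mod_cast hn
  have h1 : (n.totient : ℝ) = n * ∏ p ∈ n.primeFactors, (1 - (p : ℝ)⁻¹) := by
    have := Nat.totient_eq_mul_prod_factors n
    have h2 : ((n.totient : ℚ) : ℝ) = ((n * ∏ p ∈ n.primeFactors, (1 - (p : ℚ)⁻¹) : ℚ) : ℝ) := by
      rw [this]
    push_cast at h2
    exact h2
  have h2 := prod_half n.primeFactors (fun p hp => (Nat.prime_of_mem_primeFactors hp).two_le)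
  have h3 : ∏ p ∈ n.primeFactors, (1 - 1 / (p : ℝ) ^ 2) =
      (∏ p ∈ n.primeFactors, (1 - (p : ℝ)⁻¹)) * gg n := by
    unfold gg
    rw [← Finset.prod_mul_distrib]
    apply Finset.prod_congr rfl
    intro p hp
    have hp0 : (0 : ℝ) < p := by exact_mod_cast (Nat.prime_of_mem_primeFactors hp).pos
    field_simp
    ring
  rw [h3] at h2
  set P := ∏ p ∈ n.primeFactors, (1 - (p : ℝ)⁻¹) with hP
  have hg := one_le_gg n
  have hP0 : 0 < P := by
    by_contra hcon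
    push Not at hcon
    nlinarith
  unfold rat
  rw [h1, div_le_iff₀ (by positivity)]
  nlinarith

lemma rat_nonneg' (n : ℕ) : 0 ≤ rat n := by
  unfold rat; positivity

end Pool.Agent.Helper12.CS
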