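import Pool.Agent.Helper12.CS.Mom

/-! Sparse averages of the singular factor, and the sieve bound for tuples in symmetric form. -/

set_option autoImplicit false

open Finset Filter Topology

namespace Pool.Agent.Helper12.CS

open Pool.Agent.H197R2.PG
open Pool.Agent.H646 (rat)

/-- the average of a power of `n / φ(n)` over sparse families -/
theorem mom' (A d : ℕ) (hd : 1 ≤ d) : ∃ C : ℝ, 0 < C ∧ ∀ᶠ X : ℕ in atTop, ∀ (ι : Type) (T : Finset ι)
    (φ : ι → ℕ), (∀ t ∈ T, 1 ≤ φ t ∧ φ t ≤ X) → (∀ v, #(T.filter (fun t => φ t = v)) ≤ 2) →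
    (X : ℝ) ≤ #T * Real.log X ^ A →
    ∑ t ∈ T, rat (φ t) ^ d ≤ C * #T * Real.log (Real.log (Real.log X)) ^ d := by
  classical
  obtain ⟨C, hC, h⟩ := mom d hd
  have hC0 : 0 < C := by linarith
  refine ⟨2 ^ d * (Real.exp (A + 1) * (2 * C) ^ d), by positivity, ?_⟩
  have hlogt : Tendsto (fun x : ℕ => Real.log (x : ℝ)) atTop atTop :=
    Real.tendsto_log_atTop.comp tendsto_natCast_atTop_atTop
  have hll : Tendsto (fun x : ℕ => Real.log (Real.log (x : ℝ))) atTop atTop :=
    Real.tendsto_log_atTop.comp hlogt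
  filter_upwards [hlogt.eventually_ge_atTop 2, hll.eventually_ge_atTop 4] with X h1 h2
  intro ι T φ hφ hfib hX
  set L := Real.log (X : ℝ) with hL
  set l := Real.log L with hl
  set k := ⌈l⌉₊ with hk
  have hk1 : l ≤ k := Nat.le_ceil l
  have hk2 : (k : ℝ) < l + 1 := Nat.ceil_lt_add_one (by linarith)
  have hk3 : 3 ≤ k := by
    have : (3 : ℝ) ≤ k := by linarith
    exact_mod_cast this
  have hL0 : 0 < L := by linarith
  have hE : 2 * (X : ℝ) ≤ Real.exp (A + 1) ^ k * #T := by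
    have e1 : Real.exp ((A : ℝ) + 1) ^ k = Real.exp (((A : ℝ) + 1) * k) := by
      rw [← Real.exp_nat_mul]; ring_nf
    have e2 : L ^ (A + 1) ≤ Real.exp (((A : ℝ) + 1) * k) := by
      have e3 : L ^ (A + 1) = Real.exp (((A : ℝ) + 1) * l) := by
        rw [hl]
        have : ((A : ℝ) + 1) * Real.log L = ((A + 1 : ℕ) : ℝ) * Real.log L := by push_cast; ring
        rw [this, Real.exp_nat_mul, Real.exp_log hL0]
      rw [e3]
      apply Real.exp_le_exp.2
      have : (0 : ℝ) ≤ (A : ℝ) + 1 := by positivity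
      nlinarith
    have hT0 : (0 : ℝ) ≤ #T := Nat.cast_nonneg _
    have hLA : (0 : ℝ) ≤ L ^ A := by positivity
    calc 2 * (X : ℝ) ≤ 2 * (#T * L ^ A) := by linarith
      _ ≤ L * (#T * L ^ A) := by
          apply mul_le_mul_of_nonneg_right h1 (by positivity)
      _ = L ^ (A + 1) * #T := by ring
      _ ≤ Real.exp ((A : ℝ) + 1) ^ k * #T := by
          rw [e1]
          exact mul_le_mul_of_nonneg_right e2 hT0
  have h3 := h k X ι T φ (Real.exp (A + 1)) hk3 hφ hfib (Real.exp_pos _).le hE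
  have hlogk : Real.log k ≤ 2 * Real.log l := by
    have e1 : (k : ℝ) ≤ l ^ 2 := by nlinarith
    have e2 : (0 : ℝ) < k := by
      have : 0 < k := by omega
      exact_mod_cast this
    calc Real.log k ≤ Real.log (l ^ 2) := Real.log_le_log e2 e1
      _ = 2 * Real.log l := by rw [Real.log_pow]; norm_num
  have hlogk0 : 0 ≤ Real.log k := Real.log_natCast_nonneg k
  have hT0 : (0 : ℝ) ≤ #T := Nat.cast_nonneg _
  calc ∑ t ∈ T, rat (φ t) ^ d ≤ ∑ t ∈ T, 2 ^ d * gg (φ t) ^ d := by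
        apply sum_le_sum
        intro t ht
        rw [← mul_pow]
        exact pow_le_pow_left₀ (rat_nonneg' _) (rat_le_gg _ (hφ t ht).1) d
    _ = 2 ^ d * ∑ t ∈ T, gg (φ t) ^ d := by rw [mul_sum]
    _ ≤ 2 ^ d * (Real.exp (A + 1) * (C * Real.log k) ^ d * #T) := by
        apply mul_le_mul_of_nonneg_left h3 (by positivity)
    _ ≤ 2 ^ d * (Real.exp (A + 1) * (C * (2 * Real.log l)) ^ d * #T) := by
        gcongr
    _ = 2 ^ d * (Real.exp (A + 1) * (2 * C) ^ d) * #T * Real.log l ^ d := by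
        rw [show C * (2 * Real.log l) = (2 * C) * Real.log l by ring, mul_pow]
        ring

/-- the sieve bound for prime tuples, in symmetric form -/
theorem tb (k : ℕ) (hk : 2 ≤ k) : ∃ C : ℝ, 0 < C ∧ ∃ M : ℕ, 1 ≤ M ∧ ∀ᶠ x : ℕ in atTop,
    ∀ e : Fin k → ℕ, Function.Injective e →
      (#{n ∈ Icc 1 x | ∀ j, (n + e j).Prime} : ℝ) ≤ C * x / (Real.log x) ^ k *
        ∑ q ∈ (univ : Finset (Fin k × Fin k)) with q.1 ≠ q.2, rat (Nat.dist (e q.1) (e q.2)) ^ M := by
  classical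
  obtain ⟨C, hC, A, x₀, h⟩ := Pool.Agent.H646.TuplesM.tuple_bound k (by omega)
  set Q : Finset (Fin k × Fin k) := univ.filter (fun q => q.1 < q.2) with hQ
  refine ⟨C, hC, A * #Q + 1, by omega, ?_⟩
  filter_upwards [eventually_ge_atTop x₀] with x hx
  intro e he
  set σ := Tuple.sort e with hσ
  have hmono : StrictMono (e ∘ σ) :=
    (Tuple.monotone_sort e).strictMono_of_injective (he.comp σ.injective)
  have h1 := h x hx (e ∘ σ) hmono
  have hset : ({n ∈ Icc 1 x | ∀ j, (n + e j).Prime} : Finset ℕ) =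
      {n ∈ Icc 1 x | ∀ j, (n + (e ∘ σ) j).Prime} := by
    apply filter_congr
    intro n _
    constructor
    · intro h j; exact h (σ j)
    · intro h j
      have := h (σ.symm j)
      simpa using this
  rw [hset]
  refine h1.trans ?_
  have hx0 : 0 ≤ C * x / (Real.log x) ^ k := by
    have : 0 ≤ Real.log (x : ℝ) := Real.log_natCast_nonneg x
    positivity
  apply mul_le_mul_of_nonneg_left _ hx0
  have hrat1 : ∀ n : ℕ, 1 ≤ n → 1 ≤ rat n := fun n hn => Pool.Agent.H646.TuplesM.rat_ge_one hn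
  have hQne : Q.Nonempty := ⟨(⟨0, by omega⟩, ⟨1, by omega⟩), by
    rw [hQ, mem_filter]
    exact ⟨mem_univ _, by rw [Fin.lt_def]; norm_num⟩⟩
  have hd1 : ∀ q ∈ Q, 1 ≤ rat ((e ∘ σ) q.2 - (e ∘ σ) q.1) := by
    intro q hq
    apply hrat1
    have := hmono (mem_filter.1 hq).2
    omega
  calc ∏ q ∈ Q, rat ((e ∘ σ) q.2 - (e ∘ σ) q.1) ^ A
      ≤ ∑ q ∈ Q, (rat ((e ∘ σ) q.2 - (e ∘ σ) q.1) ^ A) ^ (#Q) :=
        Pool.Agent.H646.TuplesM.prod_le_sum_pow Q (fun q => rat ((e ∘ σ) q.2 - (e ∘ σ) q.1) ^ A)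
          (fun q hq => one_le_pow₀ (hd1 q hq)) hQne
    _ ≤ ∑ q ∈ Q, rat (Nat.dist (e (σ q.1)) (e (σ q.2))) ^ (A * #Q + 1) := by
        apply sum_le_sum
        intro q hq
        have h2 := hmono (mem_filter.1 hq).2
        have e1 : Nat.dist (e (σ q.1)) (e (σ q.2)) = (e ∘ σ) q.2 - (e ∘ σ) q.1 :=
          Nat.dist_eq_sub_of_le (le_of_lt h2)
        rw [e1, ← pow_mul]
        exact pow_le_pow_right₀ (hd1 q hq) (by omega)
    _ ≤ ∑ q ∈ (univ : Finset (Fin k × Fin k)) with q.1 ≠ q.2,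
          rat (Nat.dist (e (σ q.1)) (e (σ q.2))) ^ (A * #Q + 1) := by
        apply sum_le_sum_of_subset_of_nonneg
        · intro q hq
          rw [mem_filter] at hq ⊢
          exact ⟨mem_univ _, hq.2.ne⟩
        · intro q _ _
          exact pow_nonneg (rat_nonneg' _) _
    _ = ∑ q ∈ (univ : Finset (Fin k × Fin k)) with q.1 ≠ q.2,
          rat (Nat.dist (e q.1) (e q.2)) ^ (A * #Q + 1) := by
        apply Finset.sum_nbij' (fun q => (σ q.1, σ q.2)) (fun q => (σ.symm q.1, σ.symm q.2))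
        · intro q hq
          rw [mem_filter] at hq ⊢
          exact ⟨mem_univ _, fun h => hq.2 (σ.injective h)⟩
        · intro q hq
          rw [mem_filter] at hq ⊢
          exact ⟨mem_univ _, fun h => hq.2 (σ.symm.injective h)⟩
        · intro q _; simp
        · intro q _; simp
        · intro q _; rfl

end Pool.Agent.Helper12.CS
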